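import Pool.Agent.TH247.NS.B

set_option autoImplicit false

noncomputable section

open MeasureTheory
open scoped ENNReal Pointwise

namespace Pool.Agent.Results.MP_5f4cdd_gt.BoundedAsymmetry

/-- The `L^p`-Mahler volume `M_p(K) = vol(K) ∫ exp(-h_{p,K}(y)) dy` for `0 < p < ∞`, where
`exp(-h_{p,K}(y)) = ((1/vol K) ∫_K exp(p⟨x,y⟩) dx)^(-1/p)`. -/
def mahlerVolume {n : ℕ} (p : ℝ) (K : Set (Fin n → ℝ)) : ℝ≥0∞ :=
  volume K * ∫⁻ y : Fin n → ℝ, ENNReal.ofReal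
    (((∫ x in K, Real.exp (p * ∑ i, x i * y i)) / (volume K).toReal) ^ (-(1 / p)))

/-- The classical Mahler volume `M_∞(K) = vol(K) ∫ exp(-h_K(y)) dy` (the case `p = ∞`), where
`h_K(y) = sup_{x ∈ K} ⟨x, y⟩`. -/
def mahlerInf {n : ℕ} (K : Set (Fin n → ℝ)) : ℝ≥0∞ :=
  volume K * ∫⁻ y : Fin n → ℝ, ENNReal.ofReal
    (Real.exp (-(sSup ((fun x : Fin n → ℝ => ∑ i, x i * y i) '' K))))

/-- the standard simplex `Δ_n` -/
def simplex (n : ℕ) : Set (Fin n → ℝ) := {z | (∀ i, 0 ≤ z i) ∧ ∑ i, z i ≤ 1}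

/-- the infimum of `M_p(Δ_n - x)` over `x ∈ Δ_n`, for `0 < p < ∞` -/
def simplexInf (n : ℕ) (p : ℝ) : ℝ≥0∞ :=
  ⨅ x ∈ simplex n, mahlerVolume p ((fun z : Fin n → ℝ => z - x) '' simplex n)

/-- the infimum of `M_∞(Δ_n - x)` over `x ∈ Δ_n` -/
def simplexInfTop (n : ℕ) : ℝ≥0∞ :=
  ⨅ x ∈ simplex n, mahlerInf ((fun z : Fin n → ℝ => z - x) '' simplex n)

/-- convex bodies in `ℝⁿ` (in any position) -/
def Body {n : ℕ} (K : Set (Fin n → ℝ)) : Prop := Convex ℝ K ∧ IsCompact K ∧ (interior K).Nonempty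

/-- the polar body `K° = {y : ⟨x, y⟩ ≤ 1 for all x ∈ K}` -/
def polar {n : ℕ} (K : Set (Fin n → ℝ)) : Set (Fin n → ℝ) := {y | ∀ x ∈ K, ∑ i, x i * y i ≤ 1}

/-- the Minkowski asymmetry of `K` is at most `ρ`: a translate of `ρ K` contains `-K` -/
def Asymmetry {n : ℕ} (ρ : ℝ) (K : Set (Fin n → ℝ)) : Prop := ∃ z : Fin n → ℝ, -K ⊆ {z} + ρ • K

/-- `K` lies between a translate of a centrally symmetric set `S` and a translate of `ρ S` (so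
the Banach-Mazur distance of `K` to some symmetric body is at most `ρ`) -/
def NearSymmetric {n : ℕ} (ρ : ℝ) (K : Set (Fin n → ℝ)) : Prop :=
  ∃ S : Set (Fin n → ℝ), -S = S ∧ ∃ x y : Fin n → ℝ, {x} + S ⊆ K ∧ K ⊆ {y} + ρ • S

/-- the bodies of the theorem -/
def Class {n : ℕ} (ρ : ℝ) (K : Set (Fin n → ℝ)) : Prop :=
  Asymmetry ρ K ∨ NearSymmetric ρ K ∨ Asymmetry ρ (polar K)

/-- `β(p) = (1+p)^(1+1/p)/p`, which tends to `1` as `p → ∞` -/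
def beta (p : ℝ) : ℝ := (1 + p) ^ (1 + 1 / p) / p

lemma near_asym {n : ℕ} {ρ : ℝ} {K : Set (Fin n → ℝ)} (h : NearSymmetric ρ K) :
    Asymmetry ρ K := by
  obtain ⟨S, hS, x, y, h1, h2⟩ := h
  refine ⟨-y - ρ • x, ?_⟩
  intro u hu
  obtain ⟨y', hy', _, ⟨s, hs, rfl⟩, hys⟩ := h2 (show -u ∈ K from hu)
  rw [Set.mem_singleton_iff] at hy'
  subst hy'
  simp only at hys
  have hs' : -s ∈ S := by
    rw [← hS] at hs
    exact hs
  have hk : x + -s ∈ K := h1 ⟨x, rfl, -s, hs', rfl⟩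
  refine ⟨_, rfl, ρ • (x + -s), ⟨x + -s, hk, rfl⟩, ?_⟩
  have hu' : u = -(y' + ρ • s) := by rw [hys, neg_neg]
  rw [hu']
  simp only
  module

lemma class_asy {n : ℕ} {ρ : ℝ} {K : Set (Fin n → ℝ)} (h : Class ρ K) :
    Pool.Agent.TH247.NS.Asy ρ K := by
  rcases h with h | h | h
  · exact Or.inl h
  · exact Or.inl (near_asym h)
  · exact Or.inr h

/-- **The non-symmetric `L^p`-Mahler inequality for convex bodies of bounded asymmetry.** -/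
theorem result :
    -- a Rogers-Shephard inequality for bodies of bounded asymmetry
    (∀ n : ℕ, 1 ≤ n → ∀ K : Set (Fin n → ℝ), Body K → ∀ ρ : ℝ, 0 < ρ →
      (Asymmetry ρ K ∨ NearSymmetric ρ K) →
        volume.real (K - K) ≤ (2 * Real.sqrt ρ) ^ n * volume.real K) ∧
    -- lower bound for the Mahler volumes, in every position
    (∀ n : ℕ, 1 ≤ n → ∀ K : Set (Fin n → ℝ), Body K → ∀ ρ : ℝ, 0 < ρ → Class ρ K →
      ENNReal.ofReal ((2 + 2 / ρ) ^ n) ≤ mahlerInf K ∧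
      ∀ p : ℝ, 0 < p → mahlerInf K ≤ mahlerVolume p K) ∧
    -- the inequality of Q1 in large dimensions, for every `ρ < 2/(e - 2) = 2.784...`
    (∀ ρ : ℝ, 0 < ρ → ρ < 2 / (Real.exp 1 - 2) → ∃ (p₀ : ℝ) (n₀ : ℕ), 0 < p₀ ∧
      ∀ n : ℕ, n₀ ≤ n → ∀ K : Set (Fin n → ℝ), Body K → Class ρ K →
        simplexInfTop n < mahlerInf K ∧ ∀ p : ℝ, p₀ ≤ p → simplexInf n p < mahlerVolume p K) ∧
    -- the inequality of Q1 for single `n`, `p`, `ρ`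
    (∀ n : ℕ, 1 ≤ n → ∀ K : Set (Fin n → ℝ), Body K → ∀ ρ : ℝ, 0 < ρ → Class ρ K →
      (((n:ℝ) + 1) ^ (n + 1) / n.factorial ≤ (2 + 2 / ρ) ^ n → simplexInfTop n ≤ mahlerInf K) ∧
      ∀ p : ℝ, 0 < p →
        beta p ^ n * (((n:ℝ) + 1) ^ (n + 1) / n.factorial) ≤ (2 + 2 / ρ) ^ n →
        simplexInf n p ≤ mahlerVolume p K) ∧
    -- explicit dimensions
    (∀ n : ℕ, 15 ≤ n → ∀ K : Set (Fin n → ℝ), Body K → Class 2 K →
      simplexInfTop n < mahlerInf K) ∧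
    (∀ n : ℕ, 77 ≤ n → ∀ K : Set (Fin n → ℝ), Body K → Class (5 / 2) K →
      simplexInfTop n < mahlerInf K) ∧
    (∀ n : ℕ, 120 ≤ n → ∀ p : ℝ, 1000 ≤ p → ∀ K : Set (Fin n → ℝ), Body K → Class (5 / 2) K →
      simplexInf n p < mahlerVolume p K) := by
  refine ⟨?_, ?_, ?_, ?_, ?_, ?_, ?_⟩
  · intro n hn K hK ρ hρ h
    have h' : Asymmetry ρ K := h.elim id near_asym
    obtain ⟨z, hz⟩ := h'
    exact Pool.Agent.TH247.NS.diff_le hn hK.1 hK.2.1 hK.2.2 hρ hz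
  · intro n hn K hK ρ hρ h
    exact ⟨Pool.Agent.TH247.NS.mah_asy hn hK.1 hK.2.1 hK.2.2 hρ (class_asy h),
      fun p hp => Pool.Agent.W570.NQ.mah_le_mahp hK.2.1 (Pool.Agent.W570.NQ.vol_ne hK.2.2) hp⟩
  · intro ρ hρ h
    have he : 0 < Real.exp 1 - 2 := by
      have := Real.exp_one_gt_d9
      linarith
    rw [lt_div_iff₀ he] at h
    obtain ⟨p0, n0, hp0, H⟩ := Pool.Agent.TH247.NS.all_rho hρ h
    exact ⟨p0, n0, hp0, fun n hn K hK hs => H n hn K hK.1 hK.2.1 hK.2.2 (class_asy hs)⟩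
  · intro n hn K hK ρ hρ h
    exact ⟨(Pool.Agent.TH247.NS.crit_inf hn hK.1 hK.2.1 hK.2.2 hρ (class_asy h)).1,
      fun p hp => (Pool.Agent.TH247.NS.crit_fin hp hn hK.1 hK.2.1 hK.2.2 hρ (class_asy h)).1⟩
  · intro n hn K hK h
    exact Pool.Agent.TH247.NS.two_inf hn hK.1 hK.2.1 hK.2.2 (class_asy h)
  · intro n hn K hK h
    exact Pool.Agent.TH247.NS.five_inf hn hK.1 hK.2.1 hK.2.2 (class_asy h)
  · intro n hn p hp K hK h
    exact Pool.Agent.TH247.NS.five_fin hp hn hK.1 hK.2.1 hK.2.2 (class_asy h)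

end Pool.Agent.Results.MP_5f4cdd_gt.BoundedAsymmetry
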